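import Pool.Agent.Helper37_CAP.Stmts

/-!
# Squad CAP, module FPC: fixed points of a multiplication in a cyclic group
-/

set_option autoImplicit false

namespace Pool.Agent.CAP.H31

theorem fpc : FPC := by
  intro M _ t ht
  have h1 : ((Finset.univ : Finset (ZMod M)).filter (fun g => (t : ZMod M) * g = g)).card =
      Nat.card (nsmulAddMonoidHom (t - 1) : ZMod M →+ ZMod M).ker := by
    rw [Nat.card_eq_fintype_card, Fintype.card_subtype]
    congr 1
    ext g
    simp only [Finset.mem_filter, Finset.mem_univ, true_and]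
    rw [AddMonoidHom.mem_ker, nsmulAddMonoidHom_apply, nsmul_eq_mul, Nat.cast_sub ht, Nat.cast_one,
      sub_mul, one_mul, sub_eq_zero]
  rw [h1, IsAddCyclic.card_nsmulAddMonoidHom_ker, Nat.card_zmod, Nat.gcd_comm]

end Pool.Agent.CAP.H31
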