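import Pool.Agent.Helper37_CAP.Stmts

/-!
# Squad CAP, module MUB: the multiplier theorem for sets missing the coset `0`
-/

set_option autoImplicit false

open Finset

namespace Pool.Agent.CAP.H31

/-- the number of representations of `g` as `p d - d'` -/
def rep (k p : ℕ) (D : Finset (ZMod (k * (k + 2)))) (g : ZMod (k * (k + 2))) : ℕ :=
  ((D ×ˢ D).filter (fun q => (p : ZMod (k * (k + 2))) * q.1 - q.2 = g)).card

theorem card_off {k : ℕ} [NeZero (k * (k + 2))] {D : Finset (ZMod (k * (k + 2)))}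
    (hD : ADS k D) :
    ((Finset.univ : Finset (ZMod (k * (k + 2)))).filter (fun g => pr k g ≠ 0)).card + (k + 1) =
      (k + 1) * (k + 1) := by
  have h1 : (Finset.univ : Finset (ZMod (k * (k + 2)))).filter (fun g => pr k g ≠ 0) =
      D.offDiag.image (fun q => q.1 - q.2) := by
    ext g
    simp only [mem_filter, mem_univ, true_and, mem_image, mem_offDiag, Prod.exists]
    constructor
    · intro hg
      obtain ⟨d, hd, d', hd', hdd⟩ := hD.ex g hg
      refine ⟨d, d', ⟨hd, hd', ?_⟩, hdd⟩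
      rintro rfl
      apply hg
      rw [← hdd, sub_self, map_zero]
    · rintro ⟨a, b, ⟨ha, hb, hab⟩, rfl⟩ h0
      rw [map_sub, sub_eq_zero] at h0
      exact hab (hD.inj a ha b hb h0)
  have h2 : (D.offDiag.image (fun q => q.1 - q.2)).card = D.offDiag.card := by
    apply Finset.card_image_of_injOn
    rintro ⟨a, b⟩ hab ⟨c, d⟩ hcd h
    rw [mem_coe, mem_offDiag] at hab hcd
    obtain ⟨e1, e2⟩ := hD.uniq a hab.1 b hab.2.1 c hcd.1 d hcd.2.1 h hab.2.2
    exact Prod.ext e1 e2
  rw [h1, h2, offDiag_card, hD.card]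
  have : k + 1 ≤ (k + 1) * (k + 1) := Nat.le_mul_of_pos_left _ (Nat.succ_pos k)
  omega

theorem mub (dse : DSE) : MUB := by
  intro k D hk hD h0 p hp hpk hE
  haveI : NeZero (k * (k + 2)) := ⟨by positivity⟩
  haveI : Fact p.Prime := ⟨hp⟩
  have hcop : Nat.Coprime p (k + 2) := by
    have h1 : Nat.Coprime (k + 1) (k + 2) := by
      rw [show k + 2 = (k + 1) + 1 by ring]
      simp
    exact Nat.Coprime.coprime_dvd_left hpk h1
  have hu : IsUnit ((p : ℕ) : ZMod (k + 2)) := (ZMod.isUnit_iff_coprime p (k + 2)).2 hcop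
  have hpr : ∀ x : ZMod (k * (k + 2)), pr k ((p : ZMod (k * (k + 2))) * x) =
      (p : ZMod (k + 2)) * pr k x := fun x => by rw [map_mul, map_natCast]
  -- the element of `D` in the coset of `p d`
  have hτ : ∀ d ∈ D, ∃ d' ∈ D, pr k ((p : ZMod (k * (k + 2))) * d - d') = 0 := by
    intro d hd
    obtain ⟨c₀, hc₀⟩ := dse k D hk hD
    have hc : c₀ = 0 := by
      by_contra hne
      obtain ⟨d', hd', he⟩ := (hc₀ 0).2 (Ne.symm hne)
      exact h0 d' hd' he
    have h1 : (p : ZMod (k + 2)) * pr k d ≠ 0 := by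
      intro h2
      exact h0 d hd ((hu.mul_right_eq_zero).1 h2)
    obtain ⟨d', hd', he⟩ := (hc₀ ((p : ZMod (k + 2)) * pr k d)).2 (by rw [hc]; exact h1)
    exact ⟨d', hd', by rw [map_sub, hpr, he, sub_self]⟩
  have hτu : ∀ d ∈ D, ∀ a ∈ D, ∀ b ∈ D, pr k ((p : ZMod (k * (k + 2))) * d - a) = 0 →
      pr k ((p : ZMod (k * (k + 2))) * d - b) = 0 → a = b := by
    intro d _ a ha b hb h1 h2
    apply hD.inj a ha b hb
    rw [map_sub, sub_eq_zero] at h1 h2
    rw [← h1, ← h2]
  -- counting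
  have hN : ((D ×ˢ D).filter
      (fun q => pr k ((p : ZMod (k * (k + 2))) * q.1 - q.2) = 0)).card = k + 1 := by
    rw [← hD.card]
    apply Finset.card_bij (fun q _ => q.1)
    · intro q hq
      rw [mem_filter, mem_product] at hq
      exact hq.1.1
    · rintro ⟨a, b⟩ hab ⟨c, d⟩ hcd h
      rw [mem_filter, mem_product] at hab hcd
      simp only at h hab hcd
      subst h
      exact Prod.ext rfl (hτu a hab.1.1 b hab.1.2 d hcd.1.2 hab.2 hcd.2)
    · intro d hd
      obtain ⟨d', hd', he⟩ := hτ d hd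
      exact ⟨(d, d'), by rw [mem_filter, mem_product]; exact ⟨⟨hd, hd'⟩, he⟩, rfl⟩
  set S : Finset (ZMod (k * (k + 2))) := Finset.univ.filter (fun g => pr k g ≠ 0) with hS
  have hsum : ∑ g ∈ S, rep k p D g + (k + 1) = (k + 1) * (k + 1) := by
    have h1 : ((D ×ˢ D).filter
        (fun q => ¬ pr k ((p : ZMod (k * (k + 2))) * q.1 - q.2) = 0)).card =
        ∑ g ∈ S, rep k p D g := by
      rw [Finset.card_eq_sum_card_fiberwise
        (f := fun q : ZMod (k * (k + 2)) × ZMod (k * (k + 2)) =>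
          (p : ZMod (k * (k + 2))) * q.1 - q.2) (t := S)]
      · refine Finset.sum_congr rfl fun g hg => ?_
        unfold rep
        congr 1
        ext q
        simp only [mem_filter, mem_product]
        constructor
        · rintro ⟨⟨h2, _⟩, h3⟩
          exact ⟨h2, h3⟩
        · rintro ⟨h2, h3⟩
          refine ⟨⟨h2, ?_⟩, h3⟩
          rw [h3]
          exact (mem_filter.1 hg).2
      · intro q hq
        rw [mem_coe, mem_filter] at hq
        rw [mem_coe, hS, mem_filter]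
        exact ⟨mem_univ _, hq.2⟩
    have h2 := Finset.card_filter_add_card_filter_not (s := D ×ˢ D)
      (fun q => pr k ((p : ZMod (k * (k + 2))) * q.1 - q.2) = 0)
    rw [hN, h1, card_product, hD.card] at h2
    omega
  have hcard : S.card + (k + 1) = (k + 1) * (k + 1) := card_off hD
  have hge : ∀ g ∈ S, 1 ≤ rep k p D g := by
    intro g hg
    rw [Nat.one_le_iff_ne_zero]
    intro hz
    have h1 := hE g
    rw [if_neg (mem_filter.1 hg).2] at h1
    unfold rep at hz
    rw [hz, Nat.cast_zero] at h1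
    exact zero_ne_one h1
  have hone : ∀ g ∈ S, 1 = rep k p D g := by
    rw [← Finset.sum_eq_sum_iff_of_le hge, Finset.sum_const, smul_eq_mul, mul_one]
    omega
  -- the value of `p d - τ d` does not depend on `d`
  have hconst : ∀ d₁ ∈ D, ∀ a₁ ∈ D, ∀ d₂ ∈ D, ∀ a₂ ∈ D,
      pr k ((p : ZMod (k * (k + 2))) * d₁ - a₁) = 0 →
      pr k ((p : ZMod (k * (k + 2))) * d₂ - a₂) = 0 →
      (p : ZMod (k * (k + 2))) * d₁ - a₁ = (p : ZMod (k * (k + 2))) * d₂ - a₂ := by
    intro d₁ hd₁ a₁ ha₁ d₂ hd₂ a₂ ha₂ h1 h2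
    by_cases hdd : d₁ = d₂
    · subst hdd
      rw [hτu d₁ hd₁ a₁ ha₁ a₂ ha₂ h1 h2]
    · have h3 : pr k ((p : ZMod (k * (k + 2))) * (d₁ - d₂)) ≠ 0 := by
        rw [hpr]
        intro h4
        have h5 := (hu.mul_right_eq_zero).1 h4
        rw [map_sub, sub_eq_zero] at h5
        exact hdd (hD.inj d₁ hd₁ d₂ hd₂ h5)
      obtain ⟨a, ha, b, hb, hab⟩ := hD.ex _ h3
      have h6 : (p : ZMod (k * (k + 2))) * d₁ - a = (p : ZMod (k * (k + 2))) * d₂ - b := by
        linear_combination -hab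
      by_cases h7 : pr k ((p : ZMod (k * (k + 2))) * d₁ - a) = 0
      · have h8 : pr k ((p : ZMod (k * (k + 2))) * d₂ - b) = 0 := by rw [← h6]; exact h7
        rw [hτu d₁ hd₁ a₁ ha₁ a ha h1 h7, hτu d₂ hd₂ a₂ ha₂ b hb h2 h8, h6]
      · exfalso
        have h8 : (p : ZMod (k * (k + 2))) * d₁ - a ∈ S := by
          rw [hS, mem_filter]
          exact ⟨mem_univ _, h7⟩
        have h9 := hone _ h8
        unfold rep at h9
        have h10 : ({(d₁, a), (d₂, b)} : Finset _) ⊆ (D ×ˢ D).filter (fun q =>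
            (p : ZMod (k * (k + 2))) * q.1 - q.2 = (p : ZMod (k * (k + 2))) * d₁ - a) := by
          intro q hq
          rw [mem_insert, mem_singleton] at hq
          rw [mem_filter, mem_product]
          rcases hq with rfl | rfl
          · exact ⟨⟨hd₁, ha⟩, rfl⟩
          · exact ⟨⟨hd₂, hb⟩, h6.symm⟩
        have h11 := Finset.card_le_card h10
        rw [← h9, Finset.card_pair (by
          intro h12
          exact hdd (congrArg Prod.fst h12))] at h11
        omega
  have hne : D.Nonempty := by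
    rw [← Finset.card_pos, hD.card]
    omega
  obtain ⟨d₀, hd₀⟩ := hne
  obtain ⟨a₀, ha₀, he₀⟩ := hτ d₀ hd₀
  refine ⟨(p : ZMod (k * (k + 2))) * d₀ - a₀, fun d hd => ?_⟩
  obtain ⟨a, ha, he⟩ := hτ d hd
  rw [hconst d₀ hd₀ a₀ ha₀ d hd a ha he₀ he]
  have : (p : ZMod (k * (k + 2))) * d - ((p : ZMod (k * (k + 2))) * d - a) = a := by ring
  rw [this]
  exact ha

end Pool.Agent.CAP.H31
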